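import Pool.Agent.Helper69.SHT.St

/-!
# Module TNG of the project SHT (tangent line; the entropy is jointly concave)
-/

set_option autoImplicit false

namespace Pool.Agent.Helper67.SHT

open Finset Filter Pool.Agent.Helper82.CN Pool.Agent.Helper11.PV Pool.Agent.Helper69.VX
  Pool.Agent.Helper69.UX Pool.Agent.Helper69.SHT

/-- `ln n'! - ln n! ≤ (n' - n) ln n'` -/
theorem logFac (n : ℕ) (hn : 1 ≤ n) : ∀ m : ℕ, n ≤ m →
    Real.log (m.factorial : ℝ) - Real.log (n.factorial : ℝ) ≤ ((m : ℝ) - n) * Real.log m := by
  intro m hm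
  induction m, hm using Nat.le_induction with
  | base => simp
  | succ k hk ih =>
    have hk1 : 1 ≤ k := le_trans hn hk
    have hk0 : (0 : ℝ) < k := by exact_mod_cast hk1
    have hf : Real.log ((k + 1).factorial : ℝ) = Real.log ((k : ℝ) + 1) + Real.log (k.factorial : ℝ) := by
      rw [Nat.factorial_succ]
      push_cast
      rw [Real.log_mul (by positivity) (by exact_mod_cast (Nat.factorial_ne_zero k))]
    have hl : Real.log (k : ℝ) ≤ Real.log ((k : ℝ) + 1) := Real.log_le_log hk0 (by linarith)
    have hkn : (0 : ℝ) ≤ (k : ℝ) - n := by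
      have : (n : ℝ) ≤ k := by exact_mod_cast hk
      linarith
    have h2 : ((k : ℝ) - n) * Real.log k ≤ ((k : ℝ) - n) * Real.log ((k : ℝ) + 1) :=
      mul_le_mul_of_nonneg_left hl hkn
    rw [hf]
    push_cast
    nlinarith [ih, h2]

theorem hTNG : StTNG := by
  intro p ε C δ n n' T th th' κ κ' lam mu lam' mu' hp hp1 hn hnn hP hP'
  have hom : ∀ u : ℕ, 0 < om p u := by
    intro u
    unfold om
    have : 0 < 1 - p := by linarith
    positivity
  -- termwise inequality
  have key : ∀ u ∈ range (T + 1),
      κ' u * ((lam - lam') + (mu - mu') * u + 1) ≤ κ u := by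
    intro u hu
    rcases Nat.eq_zero_or_pos u with h0 | h0
    · have h1 := hP.zer u (Or.inl h0)
      have h2 := hP'.zer u (Or.inl h0)
      rw [h1, h2]
      simp
    · have huT : u ≤ T := by
        have := mem_range.mp hu
        omega
      have h1 := hP.eq u h0 huT
      have h2 := hP'.eq u h0 huT
      have h3 : κ u = κ' u * Real.exp ((lam - lam') + (mu - mu') * u) := by
        rw [h1, h2]
        have : Real.exp (lam + mu * u) =
            Real.exp (lam' + mu' * u) * Real.exp ((lam - lam') + (mu - mu') * u) := by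
          rw [← Real.exp_add]
          congr 1
          ring
        rw [this]
        ring
      have h4 : 0 < κ' u := by
        rw [h2]
        exact mul_pos (Real.exp_pos _) (hom u)
      have h5 := Real.add_one_le_exp ((lam - lam') + (mu - mu') * (u : ℝ))
      rw [h3]
      exact mul_le_mul_of_nonneg_left h5 h4.le
  have hsum := sum_le_sum key
  have hexp : ∑ u ∈ range (T + 1), κ' u * ((lam - lam') + (mu - mu') * u + 1) =
      (lam - lam') * KK T κ' + (mu - mu') * n' + KK T κ' := by
    have h1 : ∑ u ∈ range (T + 1), κ' u * ((lam - lam') + (mu - mu') * u + 1) =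
        ∑ u ∈ range (T + 1), ((lam - lam') * κ' u + (mu - mu') * ((u : ℝ) * κ' u) + κ' u) :=
      sum_congr rfl (fun u _ => by ring)
    rw [h1, sum_add_distrib, sum_add_distrib, ← mul_sum, ← mul_sum, hP'.sum]
    rfl
  rw [hexp] at hsum
  have hK : ∑ u ∈ range (T + 1), κ u = KK T κ := rfl
  rw [hK] at hsum
  have he := hP.ent
  have he' := hP'.ent
  have hpos : (0 : ℝ) ≤ (n' : ℝ) ^ (th' + 3 * ε) := Real.rpow_nonneg (Nat.cast_nonneg _) _
  have hfac := logFac n hn n' hnn
  nlinarith [hsum, he, he', hpos, hfac]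

end Pool.Agent.Helper67.SHT
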